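import Pool.Agent.Helper26.M7.Words4
import Pool.Agent.Helper56.M7.Step0

/-!
The words `W1` and `W1'` when no interior spoke is a star. (Problem MP_d067c8_co.)
-/

namespace Pool.Agent.Helper19.RG

open Finset Pool.Agent.Helper19.CF Pool.Agent.Helper26.M7

section

variable {N : ℕ} [NeZero N] {f : Equiv.Perm (ZMod N)} {c d : ZMod N}

theorem h26_arc4 (hN : 9 ≤ N) (d y : ZMod N) (h : (y - d).val < 4) :
    y = d ∨ y = d + 1 ∨ y = d + 2 ∨ y = d + 3 := by
  have e := at_pos d y
  have h2 : (y - d).val = 0 ∨ (y - d).val = 1 ∨ (y - d).val = 2 ∨ (y - d).val = 3 := by omega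
  rcases h2 with h2 | h2 | h2 | h2 <;> rw [h2] at e <;> rw [e] <;> simp

/-- The spoke of column `c - 3` does not end in row `d - 1`. -/
theorem M7.no_t1 (hb : Bad f) (h : M7 f c d)
    (h9 : ∀ X : Finset (ZMod N ⊕ ZMod N), Side f X → X.card = 9 → ¬ m7 c d ⊆ X) :
    f (c - 3) ≠ d - 1 := by
  intro ht
  have hN := hb.hN
  have hin : ∀ (x : ZMod N) (j : ℕ), j < 5 → x = c - 3 + j → (x - (c - 3)).val < 5 := by
    intro x j hj hx
    have : x - (c - 3) = (j : ZMod N) := by rw [hx]; ring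
    rw [this, ZMod.val_natCast_of_lt (by omega)]
    exact hj
  have hin' : ∀ (x : ZMod N) (j : ℕ), j < 4 → x = d - 1 + j → (x - (d - 1)).val < 4 := by
    intro x j hj hx
    have : x - (d - 1) = (j : ZMod N) := by rw [hx]; ring
    rw [this, ZMod.val_natCast_of_lt (by omega)]
    exact hj
  have hs := side_A (f := f) (Y := arcs (c - 3) (d - 1) 5 4) (c := c - 3) (d := d - 1) (m := 4)
    (by omega) (by omega) (by omega) (by omega)
    (fun x => mem_arcs_l x) (fun y => mem_arcs_r y) (by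
      intro x hx
      rw [mem_arcs_r] at hx
      rw [mem_arcs_l]
      rcases h26_arc4 hN _ _ hx with h1 | h1 | h1 | h1
      · rw [← ht] at h1
        exact hin x 0 (by omega) (by rw [f.injective h1]; simp)
      · rw [sub_add_cancel, ← h.b] at h1
        refine hin x 2 (by omega) ?_
        rw [f.injective h1]
        push_cast
        ring
      · have e : d - 1 + 2 = d + 1 := by ring
        rw [e, ← h.g] at h1
        refine hin x 4 (by omega) ?_
        rw [f.injective h1]
        push_cast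
        ring
      · have e : d - 1 + 3 = d + 2 := by ring
        rw [e, ← h.a] at h1
        refine hin x 1 (by omega) ?_
        rw [f.injective h1]
        push_cast
        ring)
  refine h9 _ hs.1 hs.2 ?_
  intro v hv
  rcases v with v | v
  · rw [mem_m7_l hN] at hv
    rw [mem_arcs_l]
    rcases hv with h1 | h1 | h1 | h1
    · exact hin v 1 (by omega) (by rw [h1]; push_cast; ring)
    · exact hin v 2 (by omega) (by rw [h1]; push_cast; ring)
    · exact hin v 3 (by omega) (by rw [h1]; push_cast; ring)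
    · exact hin v 4 (by omega) (by rw [h1]; push_cast; ring)
  · rw [mem_m7_r hN] at hv
    rw [mem_arcs_r]
    rcases hv with h1 | h1 | h1
    · exact hin' v 1 (by omega) (by rw [h1]; push_cast; ring)
    · exact hin' v 2 (by omega) (by rw [h1]; push_cast; ring)
    · exact hin' v 3 (by omega) (by rw [h1]; push_cast; ring)

/-- The position of the spoke of row `d + 3`. -/
theorem M7.u_ge (hb : Bad f) (h : M7 f c d) : 4 ≤ (f.symm (d + 3) - c).val := by
  have hN := hb.hN
  obtain ⟨s1, -, -, s4, -⟩ := M7.step0 hb h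
  have hy := (M7.y_ne hb h).1
  have r3 := pos_three hN d
  by_contra hlt
  have h2 : (f.symm (d + 3) - c).val = 0 ∨ (f.symm (d + 3) - c).val = 2 := by omega
  have e := at_pos c (f.symm (d + 3))
  rcases h2 with h2 | h2
  · rw [h2, Nat.cast_zero, add_zero, Equiv.symm_apply_eq] at e
    exact hy e.symm
  · rw [h2, Equiv.symm_apply_eq] at e
    have e3 : c + ((2 : ℕ) : ZMod N) = c + 2 := by norm_num
    rw [e3] at e
    rw [← e] at s4
    omega

/-- Row 4a: the word `W1`. -/
theorem M7.w1 (hb : Bad f) (h : M7 f c d)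
    (hu : (f (f.symm (d + 3) - 1) - (d + 3)).val % 2 = 0)
    (n1 : NoStar f (c - 1)) (n2 : NoStar f (c - 2)) (n3 : NoStar f (f.symm (d + 3))) : False := by
  obtain ⟨s1, -, -, -, -⟩ := M7.step0 hb h
  obtain ⟨cA, cB, Y, k, hk, k1, k2⟩ := w1_kill hb h s1 (M7.u_ge hb h) hu
  refine kill_noStar hk ?_
  have : k = 2 ∨ k = 3 ∨ k = 4 := by omega
  rcases this with rfl | rfl | rfl
  · simpa [wq] using n1
  · simpa [wq] using n2
  · simpa [wq] using n3

/-- Row 4a: the word `W1'`. -/
theorem M7.w1' (hb : Bad f) (h : M7 f c d) (ht : f (c - 3) ≠ d - 1)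
    (hv : (d - 1 - f (f.symm (d - 1) + 1)).val % 2 = 0)
    (n0 : NoStar f (c + 1)) (n1 : NoStar f (c - 1)) (n2 : NoStar f (c - 2))
    (n3 : NoStar f (f.symm (d - 1))) : False := by
  obtain ⟨-, s2, -, -, s5⟩ := M7.step0 hb h
  obtain ⟨cA, cB, Y, k, hk, k1, k2⟩ := w1'_kill hb h s5 s2 (M7.y_ne hb h).2 ht hv
  refine kill_noStar hk ?_
  have : k = 1 ∨ k = 2 ∨ k = 3 ∨ k = 4 := by omega
  rcases this with rfl | rfl | rfl | rfl
  · simpa [wq] using n0
  · simpa [wq] using n2
  · simpa [wq] using n1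
  · simpa [wq] using n3

/-- The hypotheses of the last step. -/
theorem hw1_all : ∀ (g : Equiv.Perm (ZMod N)) (c d : ZMod N), Bad g → M7 g c d →
    (g (g.symm (d + 3) - 1) - (d + 3)).val % 2 = 0 → NoStar g (c - 1) → NoStar g (c - 2) →
    NoStar g (g.symm (d + 3)) → False :=
  fun _ _ _ hb h hu n1 n2 n3 => M7.w1 hb h hu n1 n2 n3

theorem hw1'_all
    (hnine : ∀ g : Equiv.Perm (ZMod N), Bad g → ∀ X Y : Finset (ZMod N ⊕ ZMod N), Side g X →
      X.card = 9 → Side g Y → Y.card = 7 → ¬ Y ⊆ X) :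
    ∀ (g : Equiv.Perm (ZMod N)) (c d : ZMod N), Bad g → M7 g c d →
    (d - 1 - g (g.symm (d - 1) + 1)).val % 2 = 0 → NoStar g (c + 1) → NoStar g (c - 1) →
    NoStar g (c - 2) → NoStar g (g.symm (d - 1)) → False :=
  fun g c d hb h hv n0 n1 n2 n3 =>
    M7.w1' hb h (M7.no_t1 hb h fun X hX h9 =>
      hnine g hb X (m7 c d) hX h9 (h.side hb.hN).1 (h.side hb.hN).2) hv n0 n1 n2 n3

end

end Pool.Agent.Helper19.RG
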