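import Pool.Agent.Helper26.M7.Words4
import Pool.Agent.Helper56.M7.Step0

/-!
The word `C0` at a side with seven vertices. (Problem MP_d067c8_co.)
-/

namespace Pool.Agent.Helper26.M7

open Finset Pool.Agent.Helper19.CF Pool.Agent.Helper19.RG

variable {N : ℕ} [NeZero N] {f : Equiv.Perm (ZMod N)} {c d : ZMod N}

/-- The colours of the word `C0`. -/
def c0A (c : ZMod N) (x : ZMod N) : Bool := decide ((x - c).val % 2 = 0)

def c0B (d y0 : ZMod N) (y : ZMod N) : Bool :=
  decide ((if (y - d).val < (y0 - d).val then (y - d).val + 1 else (y - d).val) % 2 = 0)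

/-- The word `C0`. -/
theorem c0_qz (hb : Bad f) (h : M7 f c d) (hw : (f.symm (f c - 1) - c).val % 2 = 0) :
    QZ f 0 2 (wq (c - 1) c (f.symm (f c - 1)) c c c) (c0A c) (c0B d (f c)) := by
  have hN := hb.hN
  have hodd := hb.hodd
  obtain ⟨-, -, -, -, s5⟩ := M7.step0 hb h
  have hne := M7.y_ne hb h
  set xw := f.symm (f c - 1) with hxw
  have hfw : f xw = f c - 1 := by rw [hxw, Equiv.apply_symm_apply]
  have c0 := pos_zero c
  have cm1 := pos_m1 hN c
  have r0 := pos_zero d
  have hyN := ZMod.val_lt (f c - d)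
  have ry := pos_pred hN d (f c) (by omega)
  have hwN := ZMod.val_lt (xw - c)
  -- the row is not `d + 1`
  have y1 : (f c - d).val ≠ 1 := by
    intro e
    have r1 := pos_one hN d
    have e1 : f c = f (c + 1) := by rw [h.g]; exact pos_inj d (by omega)
    have e2 := congrArg (fun z => (z - c).val) (f.injective e1)
    have c1 := pos_one hN c
    omega
  have w0 : (xw - c).val ≠ 0 := by
    intro e
    have : xw = c := pos_inj c (by omega)
    rw [this] at hfw
    have e2 := congrArg (fun z => (z - d).val) hfw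
    omega
  have w1 : (xw - c).val ≠ N - 1 := by
    intro e
    have : xw = c - 1 := pos_inj c (by omega)
    rw [this, h.b] at hfw
    have e2 := congrArg (fun z => (z - d).val) hfw
    omega
  have q0 : wq (c - 1) c xw c c c 0 = c - 1 := by simp [wq]
  have q1 : wq (c - 1) c xw c c c 1 = c := by simp [wq]
  have q2 : wq (c - 1) c xw c c c 2 = xw := by simp [wq]
  have hcase : ∀ i : ℤ, 0 ≤ i → i ≤ 2 → i = 0 ∨ i = 1 ∨ i = 2 := by
    intro i _ _
    omega
  have hq : QZ f 0 2 (wq (c - 1) c xw c c c) (c0A c) (c0B d (f c)) := by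
    refine qz_pos (c := c) (d := d) (fun p => p)
      (fun p => if p < (f c - d).val then p + 1 else p) (by norm_num) ?_ ?_ ?_ ?_ ?_ ?_
    · intro i i' h1 h2 h3 h4 e
      have e' := congrArg (fun z => (z - c).val) e
      rcases hcase i h1 h2 with rfl | rfl | rfl <;>
        rcases hcase i' h3 h4 with rfl | rfl | rfl <;>
        simp only [q0, q1, q2] at e' <;> first | rfl | (exfalso; omega)
    · intro i h1 h2 h3
      have : i = 0 := by omega
      subst this
      left
      show wq (c - 1) c xw c c c 1 = wq (c - 1) c xw c c c 0 + 1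
      rw [q0, q1]
      ring
    · intro i h1 h2 h3
      have : i = 1 := by omega
      subst this
      right
      show f (wq (c - 1) c xw c c c 1) = f (wq (c - 1) c xw c c c 2) + 1
      rw [q1, q2, hfw]
      ring
    · intro i h1 h2
      rcases hcase i h1 h2 with rfl | rfl | rfl
      · simp only [q0, cm1, h.b, r0]
        split_ifs <;> first | omega | (exfalso; tauto)
      · simp only [q1, c0]
        split_ifs <;> first | omega | (exfalso; tauto)
      · simp only [q2, hfw, ry]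
        split_ifs <;> first | omega | (exfalso; tauto)
    · intro u hu1 hu2
      have e : u = N - 1 := by
        split_ifs at hu2 <;> omega
      have e3 : c + (u : ZMod N) = c - 1 := by
        rw [e, Nat.cast_sub (by omega), ZMod.natCast_self, Nat.cast_one]
        ring
      refine ⟨0, by norm_num, by norm_num, by norm_num, Or.inl ⟨?_, ?_⟩⟩
      · rw [q0, e3]
      · show wq (c - 1) c xw c c c 1 = c + (u : ZMod N) + 1
        rw [q1, e3]
        ring
    · intro u hu1 hu2
      have e : u + 1 = (f c - d).val := by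
        split_ifs at hu2 <;> first | omega | (exfalso; tauto)
      refine ⟨1, by norm_num, by norm_num, by norm_num, Or.inr ⟨?_, ?_⟩⟩
      · rw [q1, at_pos d (f c), ← e]
        push_cast
        ring
      · show f (wq (c - 1) c xw c c c 2) = d + (u : ZMod N)
        rw [q2, hfw, at_pos d (f c), ← e]
        push_cast
        ring
  exact hq

end Pool.Agent.Helper26.M7

namespace Pool.Agent.Helper19.RG

open Finset Pool.Agent.Helper19.CF Pool.Agent.Helper26.M7

variable {N : ℕ} [NeZero N] {f : Equiv.Perm (ZMod N)} {c d : ZMod N}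

/-- Row 1a: the word `C0`. -/
theorem M7.c0 (hb : Bad f) (h : M7 f c d) (hw : (f.symm (f c - 1) - c).val % 2 = 0) :
    ∃ (X : Finset (ZMod N ⊕ ZMod N)) (p q r s : ℕ), Side f X ∧ Box X c d p q r s ∧
      (.inr (f c) : ZMod N ⊕ ZMod N) ∈ X ∧
      (∀ x, x ≠ c → ((.inl x : ZMod N ⊕ ZMod N) ∈ X ↔ (.inr (f x) : ZMod N ⊕ ZMod N) ∈ X)) ∧
      (.inr (f c - 1) : ZMod N ⊕ ZMod N) ∈ X ∧ (.inr (f c + 1) : ZMod N ⊕ ZMod N) ∈ X ∧
      (.inl (c - 1) : ZMod N ⊕ ZMod N) ∉ X ∧
      p % 2 = 1 ∧ q % 2 = 1 ∧ r % 2 = 0 ∧ s % 2 = 1 := by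
  have hN := hb.hN
  have hodd := hb.hodd
  obtain ⟨-, -, -, -, s5⟩ := M7.step0 hb h
  have hq := c0_qz hb h hw
  obtain ⟨Y, k, hk, k1, k2⟩ := hb.kill hq
  have hk1 : k = 1 := by omega
  subst hk1
  have q1 : wq (c - 1) c (f.symm (f c - 1)) c c c 1 = c := by simp [wq]
  have hcut := hk.cut.2 (by norm_num)
  have hnbr := (hk.nbr hb).2 (by norm_num)
  have hother := hk.other
  have hbd := hk.bd
  have hbd' := hk.bd' hb hq
  rw [q1] at hcut hnbr hother
  obtain ⟨a1, a2⟩ := hcut
  obtain ⟨b1, b2, b3, b4⟩ := hnbr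
  have e0 := hbd _ a1 _ a2 (adjS c)
  have hne1 : c - 1 ≠ c := by
    intro e
    have e2 := congrArg (fun z => (z - c).val) e
    have c0 := pos_zero c
    have cm1 := pos_m1 hN c
    omega
  have hd : (.inr d : ZMod N ⊕ ZMod N) ∈ Y := by
    have := (hother (c - 1) hne1).mp b2
    rwa [h.b] at this
  obtain ⟨p, q, r, s, hbox⟩ := hk.side.compl.box hN (c := c) (d := d)
    (by rw [mem_compl, not_not]; exact a1) (by rw [mem_compl, not_not]; exact hd)
  have hqN := hbox.qN
  have hsN := hbox.sN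
  have hp1 := hbox.p1
  have hr1 := hbox.r1
  have hpq := hbox.pq
  have hrs := hbox.rs
  have hyN := ZMod.val_lt (f c - d)
  -- rows next to the outer end
  have t1 : (.inr (f c - 1) : ZMod N ⊕ ZMod N) ∈ Yᶜ := mem_compl.mpr b4
  have t2 : (.inr (f c + 1) : ZMod N ⊕ ZMod N) ∈ Yᶜ := mem_compl.mpr b3
  have t1' := (hbox.memB _).mp t1
  have t2' := (hbox.memB _).mp t2
  rw [Pool.Agent.Helper26.M7.pos_pred hN d (f c) (by omega)] at t1'
  rw [Pool.Agent.Helper26.M7.pos_succ hN d (f c) (by omega)] at t2'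
  -- colours of boundary vertices
  have colA : ∀ j : ℕ, j < N → qC (c0A c) (c0B d (f c)) (.inl (c + (j : ZMod N))) =
      decide (j % 2 = 0) := by
    intro j hj
    show c0A c (c + (j : ZMod N)) = _
    unfold c0A
    rw [pos_nat c hj]
  have colB : ∀ j : ℕ, j < N → qC (c0A c) (c0B d (f c)) (.inr (d + (j : ZMod N))) =
      decide ((if j < (f c - d).val then j + 1 else j) % 2 = 0) := by
    intro j hj
    show c0B d (f c) (d + (j : ZMod N)) = _
    unfold c0B
    rw [pos_nat d hj]
  have ecol : qC (c0A c) (c0B d (f c)) (.inl c) = true := by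
    have := colA 0 (by omega)
    rw [Nat.cast_zero, add_zero] at this
    rw [this]
    decide
  rw [ecol] at e0
  rw [← e0] at hbd'
  have inA : ∀ j : ℕ, j < N → ((.inl (c + (j : ZMod N)) : ZMod N ⊕ ZMod N) ∈ Y ↔
      ¬ (p ≤ j ∧ j ≤ q)) := by
    intro j hj
    have := hbox.memA (c + (j : ZMod N))
    rw [pos_nat c hj, mem_compl] at this
    tauto
  have inB : ∀ j : ℕ, j < N → ((.inr (d + (j : ZMod N)) : ZMod N ⊕ ZMod N) ∈ Y ↔
      ¬ (r ≤ j ∧ j ≤ s)) := by
    intro j hj
    have := hbox.memB (d + (j : ZMod N))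
    rw [pos_nat d hj, mem_compl] at this
    tauto
  have hwrap : ∀ z : ZMod N, ∀ j : ℕ, j < N → ∃ j' : ℕ, j' < N ∧ z + (j' : ZMod N) = z + (j : ZMod N) + 1 ∧
      (j' = j + 1 ∨ (j' = 0 ∧ j + 1 = N)) := by
    intro z j hj
    by_cases hj1 : j + 1 < N
    · exact ⟨j + 1, hj1, by push_cast; ring, Or.inl rfl⟩
    · have hj2 : j + 1 = N := by omega
      refine ⟨0, by omega, ?_, Or.inr ⟨rfl, hj2⟩⟩
      have : ((j + 1 : ℕ) : ZMod N) = 0 := by rw [hj2, ZMod.natCast_self]
      push_cast at this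
      rw [Nat.cast_zero]
      linear_combination -this
  have castpred : ∀ z : ZMod N, ∀ j : ℕ, 1 ≤ j → z + ((j - 1 : ℕ) : ZMod N) + 1 = z + (j : ZMod N) := by
    intro z j hj
    rw [Nat.cast_sub hj, Nat.cast_one]
    ring
  have pp : p % 2 = 1 := by
    have g1 : (.inl (c + ((p - 1 : ℕ) : ZMod N)) : ZMod N ⊕ ZMod N) ∈ Y :=
      (inA (p - 1) (by omega)).mpr (by omega)
    have g2 : (.inl (c + (p : ZMod N)) : ZMod N ⊕ ZMod N) ∉ Y := by
      rw [inA p (by omega)]
      omega
    have g3 := adjA hb (f := f) (c + ((p - 1 : ℕ) : ZMod N))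
    rw [castpred c p hp1] at g3
    have g4 := hbd' _ g1 _ g2 g3
    rw [colA p (by omega)] at g4
    by_contra hcon
    exact g4 (decide_eq_true (by omega))
  have qq : q % 2 = 1 := by
    obtain ⟨j', j1, j2, j3⟩ := hwrap c q hqN
    have g1 : (.inl (c + (j' : ZMod N)) : ZMod N ⊕ ZMod N) ∈ Y :=
      (inA j' j1).mpr (by omega)
    have g2 : (.inl (c + (q : ZMod N)) : ZMod N ⊕ ZMod N) ∉ Y := by
      rw [inA q hqN]
      omega
    have g3 := (adjA hb (f := f) (c + (q : ZMod N))).symm
    rw [← j2] at g3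
    have g4 := hbd' _ g1 _ g2 g3
    rw [colA q hqN] at g4
    by_contra hcon
    exact g4 (decide_eq_true (by omega))
  have rr : r % 2 = 0 := by
    have g1 : (.inr (d + ((r - 1 : ℕ) : ZMod N)) : ZMod N ⊕ ZMod N) ∈ Y :=
      (inB (r - 1) (by omega)).mpr (by omega)
    have g2 : (.inr (d + (r : ZMod N)) : ZMod N ⊕ ZMod N) ∉ Y := by
      rw [inB r (by omega)]
      omega
    have g3 := adjB hb (f := f) (d + ((r - 1 : ℕ) : ZMod N))
    rw [castpred d r hr1] at g3
    have g4 := hbd' _ g1 _ g2 g3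
    rw [colB r (by omega), if_pos (by omega)] at g4
    by_contra hcon
    exact g4 (decide_eq_true (by omega))
  have ss : s % 2 = 1 := by
    obtain ⟨j', j1, j2, j3⟩ := hwrap d s hsN
    have g1 : (.inr (d + (j' : ZMod N)) : ZMod N ⊕ ZMod N) ∈ Y :=
      (inB j' j1).mpr (by omega)
    have g2 : (.inr (d + (s : ZMod N)) : ZMod N ⊕ ZMod N) ∉ Y := by
      rw [inB s hsN]
      omega
    have g3 := (adjB hb (f := f) (d + (s : ZMod N))).symm
    rw [← j2] at g3
    have g4 := hbd' _ g1 _ g2 g3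
    rw [colB s hsN, if_neg (by omega)] at g4
    by_contra hcon
    exact g4 (decide_eq_true (by omega))
  refine ⟨Yᶜ, p, q, r, s, hk.side.compl, hbox, mem_compl.mpr a2, ?_, t1, t2, ?_, pp, qq, rr, ss⟩
  · intro x hx
    rw [mem_compl, mem_compl, hother x hx]
  · rw [mem_compl, not_not]
    exact b2

end Pool.Agent.Helper19.RG
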