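import Pool.Agent.Helper19.RG.M7

/-!
The words `W1` and `W1'` at a side with seven vertices. (Problem MP_d067c8_co.)
-/

namespace Pool.Agent.Helper26.M7

open Finset Pool.Agent.Helper19.CF Pool.Agent.Helper19.RG

section words

variable {N : ℕ} [NeZero N]

/-- A word with at most six spokes. -/
def wq (x0 x1 x2 x3 x4 x5 : ZMod N) (i : ℤ) : ZMod N :=
  if i = 0 then x0 else if i = 1 then x1 else if i = 2 then x2 else if i = 3 then x3
  else if i = 4 then x4 else x5

/-- Positions relative to a base point. -/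
theorem pos_nat (c : ZMod N) {j : ℕ} (h : j < N) : (c + (j : ZMod N) - c).val = j := by
  have : c + (j : ZMod N) - c = (j : ZMod N) := by ring
  rw [this, ZMod.val_natCast_of_lt h]

theorem pos_one (hN : 9 ≤ N) (c : ZMod N) : (c + 1 - c).val = 1 := by
  have := pos_nat c (j := 1) (by omega)
  rwa [Nat.cast_one] at this

theorem pos_two (hN : 9 ≤ N) (c : ZMod N) : (c + 2 - c).val = 2 := by
  have := pos_nat c (j := 2) (by omega)
  simpa using this

theorem pos_three (hN : 9 ≤ N) (c : ZMod N) : (c + 3 - c).val = 3 := by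
  have := pos_nat c (j := 3) (by omega)
  simpa using this

theorem pos_m1 (hN : 9 ≤ N) (c : ZMod N) : (c - 1 - c).val = N - 1 := by
  have h : c - 1 - c = ((N - 1 : ℕ) : ZMod N) := by
    rw [Nat.cast_sub (by omega), ZMod.natCast_self, Nat.cast_one]
    ring
  rw [h, ZMod.val_natCast_of_lt (by omega)]

theorem pos_m2 (hN : 9 ≤ N) (c : ZMod N) : (c - 2 - c).val = N - 2 := by
  have h : c - 2 - c = ((N - 2 : ℕ) : ZMod N) := by
    rw [Nat.cast_sub (by omega), ZMod.natCast_self]
    push_cast
    ring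
  rw [h, ZMod.val_natCast_of_lt (by omega)]

theorem pos_m3 (hN : 9 ≤ N) (c : ZMod N) : (c - 3 - c).val = N - 3 := by
  have h : c - 3 - c = ((N - 3 : ℕ) : ZMod N) := by
    rw [Nat.cast_sub (by omega), ZMod.natCast_self]
    push_cast
    ring
  rw [h, ZMod.val_natCast_of_lt (by omega)]

theorem pos_zero (c : ZMod N) : (c - c).val = 0 := by
  rw [sub_self, ZMod.val_zero]

/-- The point at a position. -/
theorem at_pos (c x : ZMod N) : x = c + ((x - c).val : ZMod N) := by
  rw [ZMod.natCast_zmod_val]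
  ring

theorem pos_succ (hN : 9 ≤ N) (c x : ZMod N) (h : (x - c).val + 1 < N) :
    (x + 1 - c).val = (x - c).val + 1 := by
  have h1 : x + 1 - c = (((x - c).val + 1 : ℕ) : ZMod N) := by
    push_cast
    rw [ZMod.natCast_zmod_val]
    ring
  rw [h1, ZMod.val_natCast_of_lt h]

theorem pos_pred (hN : 9 ≤ N) (c x : ZMod N) (h : 1 ≤ (x - c).val) :
    (x - 1 - c).val = (x - c).val - 1 := by
  have h1 : x - 1 - c = (((x - c).val - 1 : ℕ) : ZMod N) := by
    rw [Nat.cast_sub h, ZMod.natCast_zmod_val, Nat.cast_one]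
    ring
  have := ZMod.val_lt (x - c)
  rw [h1, ZMod.val_natCast_of_lt (by omega)]

/-- Equal positions. -/
theorem pos_inj (c : ZMod N) {x y : ZMod N} (h : (x - c).val = (y - c).val) : x = y := by
  rw [at_pos c x, at_pos c y, h]

/-- Change of the base point. -/
theorem pos_shift (hN : 9 ≤ N) (d y : ZMod N) {k : ℕ} (hk : k ≤ (y - d).val) :
    (y - (d + (k : ZMod N))).val = (y - d).val - k := by
  have h1 : y - (d + (k : ZMod N)) = (((y - d).val - k : ℕ) : ZMod N) := by
    rw [Nat.cast_sub hk, ZMod.natCast_zmod_val]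
    ring
  have := ZMod.val_lt (y - d)
  rw [h1, ZMod.val_natCast_of_lt (by omega)]

theorem pos_rev (hN : 9 ≤ N) (d y : ZMod N) : (d - 1 - y).val = N - 1 - (y - d).val := by
  have hlt := ZMod.val_lt (y - d)
  have h1 : d - 1 - y = ((N - 1 - (y - d).val : ℕ) : ZMod N) := by
    rw [Nat.cast_sub (by omega), Nat.cast_sub (by omega), ZMod.natCast_self,
      ZMod.natCast_zmod_val, Nat.cast_one]
    ring
  rw [h1, ZMod.val_natCast_of_lt (by omega)]

variable {f : Equiv.Perm (ZMod N)} {c d : ZMod N}

/-- No spoke is cut where no spoke is a star. -/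
theorem kill_noStar {a b k : ℤ} {q : ℤ → ZMod N} {cA cB : ZMod N → Bool}
    {Y : Finset (ZMod N ⊕ ZMod N)} (h : KillQ f a b q cA cB Y k) (hn : NoStar f (q k)) :
    False := by
  have h1 := hn Y h.side
  rcases Int.emod_two_eq_zero_or_one k with g | g
  · have := h.cut.1 g
    exact this.2 (h1.mpr this.1)
  · have := h.cut.2 g
    exact this.2 (h1.mp this.1)

/-- The colours of the word `W1`. -/
def w1A (c xu : ZMod N) (x : ZMod N) : Bool :=
  decide ((if (x - c).val = N - 1 then 0 else
    if (x - c).val < (xu - c).val then (x - c).val + 1 else (x - c).val) % 2 = 0)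

def w1B (d : ZMod N) (y : ZMod N) : Bool :=
  decide ((if (y - d).val = 0 then 1 else (y - d).val) % 2 = 0)

/-- The word `W1`. -/
theorem w1_qz (hb : Bad f) (h : M7 f c d)
    (p1 : (f.symm (d + 3) - c).val % 2 = 0) (p2 : 4 ≤ (f.symm (d + 3) - c).val)
    (hu : (f (f.symm (d + 3) - 1) - (d + 3)).val % 2 = 0) :
    QZ f 1 5 (wq c (c + 1) (c - 1) (c - 2) (f.symm (d + 3)) (f.symm (d + 3) - 1))
      (w1A c (f.symm (d + 3))) (w1B d) := by
  have hN := hb.hN
  have hodd := hb.hodd
  -- positions of columns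
  set xu := f.symm (d + 3) with hxu
  have hfu : f xu = d + 3 := by rw [hxu, Equiv.apply_symm_apply]
  have c1 := pos_one hN c
  have cm1 := pos_m1 hN c
  have cm2 := pos_m2 hN c
  have hun := ZMod.val_lt (xu - c)
  have cu' := pos_pred hN c xu (by omega)
  -- rows
  have r0 := pos_zero d
  have r1 := pos_one hN d
  have r2 := pos_two hN d
  have r3 := pos_three hN d
  have hh := ZMod.val_lt (f (xu - 1) - d)
  have hu1 : (xu - c).val ≠ N - 1 := by
    intro e
    have : xu = c - 1 := pos_inj c (by omega)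
    rw [this, h.b] at hfu
    have e2 := congrArg (fun z => (z - d).val) hfu
    omega
  have hu2 : (xu - c).val ≠ N - 2 := by omega
  -- the row of the last spoke
  have n0 : (f (xu - 1) - d).val ≠ 0 := by
    intro e
    have e1 : f (xu - 1) = f (c - 1) := by rw [h.b]; exact pos_inj d (by omega)
    have e2 := congrArg (fun z => (z - c).val) (f.injective e1)
    omega
  have n1 : (f (xu - 1) - d).val ≠ 1 := by
    intro e
    have e1 : f (xu - 1) = f (c + 1) := by rw [h.g]; exact pos_inj d (by omega)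
    have e2 := congrArg (fun z => (z - c).val) (f.injective e1)
    omega
  have n2 : (f (xu - 1) - d).val ≠ 2 := by
    intro e
    have e1 : f (xu - 1) = f (c - 2) := by rw [h.a]; exact pos_inj d (by omega)
    have e2 := congrArg (fun z => (z - c).val) (f.injective e1)
    omega
  have n3 : (f (xu - 1) - d).val ≠ 3 := by
    intro e
    have e1 : f (xu - 1) = f xu := by rw [hfu]; exact pos_inj d (by omega)
    have e2 := congrArg (fun z => (z - c).val) (f.injective e1)
    omega
  have hpar : (f (xu - 1) - d).val % 2 = 1 := by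
    have e := pos_shift hN d (f (xu - 1)) (k := 3) (by omega)
    have e3 : ((3 : ℕ) : ZMod N) = 3 := by norm_num
    rw [e3] at e
    omega
  -- the word
  have q1 : wq c (c + 1) (c - 1) (c - 2) xu (xu - 1) 1 = c + 1 := by simp [wq]
  have q2 : wq c (c + 1) (c - 1) (c - 2) xu (xu - 1) 2 = c - 1 := by simp [wq]
  have q3 : wq c (c + 1) (c - 1) (c - 2) xu (xu - 1) 3 = c - 2 := by simp [wq]
  have q4 : wq c (c + 1) (c - 1) (c - 2) xu (xu - 1) 4 = xu := by simp [wq]
  have q5 : wq c (c + 1) (c - 1) (c - 2) xu (xu - 1) 5 = xu - 1 := by simp [wq]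
  have hcase : ∀ i : ℤ, 1 ≤ i → i ≤ 5 → i = 1 ∨ i = 2 ∨ i = 3 ∨ i = 4 ∨ i = 5 := by
    intro i _ _
    omega
  have hq : QZ f 1 5 (wq c (c + 1) (c - 1) (c - 2) xu (xu - 1))
      (w1A c xu) (w1B d) := by
    refine qz_pos (c := c) (d := d)
      (fun p => if p = N - 1 then 0 else if p < (xu - c).val then p + 1 else p)
      (fun p => if p = 0 then 1 else p) (by norm_num) ?_ ?_ ?_ ?_ ?_ ?_
    · intro i i' h1 h2 h3 h4 e
      have e' := congrArg (fun z => (z - c).val) e
      rcases hcase i h1 h2 with rfl | rfl | rfl | rfl | rfl <;>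
        rcases hcase i' h3 h4 with rfl | rfl | rfl | rfl | rfl <;>
        simp only [q1, q2, q3, q4, q5] at e' <;> first | rfl | (exfalso; omega)
    · intro i h1 h2 h3
      have : i = 2 ∨ i = 4 := by omega
      rcases this with rfl | rfl
      · right
        show wq c (c + 1) (c - 1) (c - 2) xu (xu - 1) 2 = wq c (c + 1) (c - 1) (c - 2) xu (xu - 1) 3 + 1
        rw [q2, q3]
        ring
      · right
        show wq c (c + 1) (c - 1) (c - 2) xu (xu - 1) 4 = wq c (c + 1) (c - 1) (c - 2) xu (xu - 1) 5 + 1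
        rw [q4, q5]
        ring
    · intro i h1 h2 h3
      have : i = 1 ∨ i = 3 := by omega
      rcases this with rfl | rfl
      · right
        show f (wq c (c + 1) (c - 1) (c - 2) xu (xu - 1) 1) =
          f (wq c (c + 1) (c - 1) (c - 2) xu (xu - 1) 2) + 1
        rw [q1, q2, h.g, h.b]
      · left
        show f (wq c (c + 1) (c - 1) (c - 2) xu (xu - 1) 4) =
          f (wq c (c + 1) (c - 1) (c - 2) xu (xu - 1) 3) + 1
        rw [q3, q4, h.a, hfu]
        ring
    · intro i h1 h2
      rcases hcase i h1 h2 with rfl | rfl | rfl | rfl | rfl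
      · simp only [q1, c1, h.g, r1]
        split_ifs <;> omega
      · simp only [q2, cm1, h.b, r0]
        split_ifs <;> omega
      · simp only [q3, cm2, h.a, r2]
        split_ifs <;> first | omega | (exfalso; tauto)
      · simp only [q4, hfu, r3]
        split_ifs <;> omega
      · simp only [q5, cu']
        split_ifs <;> omega
    · intro u hu1 hu2
      have e : u + 1 = (xu - c).val := by
        split_ifs at hu2 <;> omega
      refine ⟨4, by norm_num, by norm_num, by norm_num, Or.inr ⟨?_, ?_⟩⟩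
      · rw [q4, at_pos c xu, ← e]
        push_cast
        ring
      · show wq c (c + 1) (c - 1) (c - 2) xu (xu - 1) 5 = c + u
        rw [q5, at_pos c xu, ← e]
        push_cast
        ring
    · intro u hu1 hu2
      have e : u = 0 := by
        split_ifs at hu2 <;> first | omega | (exfalso; tauto)
      subst e
      refine ⟨1, by norm_num, by norm_num, by norm_num, Or.inr ⟨?_, ?_⟩⟩
      · rw [q1, h.g, Nat.cast_zero, add_zero]
      · show f (wq c (c + 1) (c - 1) (c - 2) xu (xu - 1) 2) = d + ((0 : ℕ) : ZMod N)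
        rw [q2, h.b, Nat.cast_zero, add_zero]
  exact hq

theorem w1_kill (hb : Bad f) (h : M7 f c d)
    (p1 : (f.symm (d + 3) - c).val % 2 = 0) (p2 : 4 ≤ (f.symm (d + 3) - c).val)
    (hu : (f (f.symm (d + 3) - 1) - (d + 3)).val % 2 = 0) :
    ∃ (cA cB : ZMod N → Bool) (Y : Finset (ZMod N ⊕ ZMod N)) (k : ℤ),
      KillQ f 1 5 (wq c (c + 1) (c - 1) (c - 2) (f.symm (d + 3)) (f.symm (d + 3) - 1)) cA cB Y k ∧
        1 < k ∧ k < 5 := by
  obtain ⟨Y, k, g1, g2, g3⟩ := hb.kill (w1_qz hb h p1 p2 hu)
  exact ⟨_, _, Y, k, g1, g2, g3⟩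

/-- The colours of the word `W1'`. -/
def w1'A (c xv : ZMod N) (x : ZMod N) : Bool :=
  decide ((if (x - c).val = N - 1 then 1 else if (x - c).val = 0 then 0 else
    if (x - c).val ≤ (xv - c).val then (x - c).val + 1 else (x - c).val) % 2 = 0)

def w1'B (d : ZMod N) (y : ZMod N) : Bool := decide ((y - d).val % 2 = 0)

/-- The word `W1'`. -/
theorem w1'_qz (hb : Bad f) (h : M7 f c d)
    (p0 : (f c - d).val % 2 = 1) (p1 : (f.symm (d - 1) - c).val % 2 = 0)
    (hy : f c ≠ d - 1) (ht : f (c - 3) ≠ d - 1)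
    (hv : (d - 1 - f (f.symm (d - 1) + 1)).val % 2 = 0) :
    QZ f 0 5 (wq c (c + 1) (c - 2) (c - 1) (f.symm (d - 1)) (f.symm (d - 1) + 1))
      (w1'A c (f.symm (d - 1))) (w1'B d) := by
  have hN := hb.hN
  have hodd := hb.hodd
  -- positions of columns
  set xv := f.symm (d - 1) with hxv
  have hfv : f xv = d - 1 := by rw [hxv, Equiv.apply_symm_apply]
  have c0 := pos_zero c
  have c1 := pos_one hN c
  have cm1 := pos_m1 hN c
  have cm2 := pos_m2 hN c
  have cm3 := pos_m3 hN c
  have hvn := ZMod.val_lt (xv - c)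
  -- rows
  have r0 := pos_zero d
  have r1 := pos_one hN d
  have r2 := pos_two hN d
  have rm := pos_m1 hN d
  have hh := ZMod.val_lt (f (xv + 1) - d)
  have hy' := ZMod.val_lt (f c - d)
  have v0 : (xv - c).val ≠ 0 := by
    intro e
    have : xv = c := pos_inj c (by omega)
    rw [this] at hfv
    exact hy hfv
  have v3 : (xv - c).val ≠ N - 3 := by
    intro e
    have : xv = c - 3 := pos_inj c (by omega)
    rw [this] at hfv
    exact ht hfv
  have v1 : (xv - c).val ≠ N - 1 := by
    intro e
    have : xv = c - 1 := pos_inj c (by omega)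
    rw [this, h.b] at hfv
    have e2 := congrArg (fun z => (z - d).val) hfv
    omega
  have cv' := pos_succ hN c xv (by omega)
  -- the row of the last spoke
  have n0 : (f (xv + 1) - d).val ≠ 0 := by
    intro e
    have e1 : f (xv + 1) = f (c - 1) := by rw [h.b]; exact pos_inj d (by omega)
    have e2 := congrArg (fun z => (z - c).val) (f.injective e1)
    omega
  have nm : (f (xv + 1) - d).val ≠ N - 1 := by
    intro e
    have e1 : f (xv + 1) = f xv := by rw [hfv]; exact pos_inj d (by omega)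
    have e2 := congrArg (fun z => (z - c).val) (f.injective e1)
    omega
  have hpar : (f (xv + 1) - d).val % 2 = 0 := by
    have e := pos_rev hN d (f (xv + 1))
    omega
  -- the word
  have q0 : wq c (c + 1) (c - 2) (c - 1) xv (xv + 1) 0 = c := by simp [wq]
  have q1 : wq c (c + 1) (c - 2) (c - 1) xv (xv + 1) 1 = c + 1 := by simp [wq]
  have q2 : wq c (c + 1) (c - 2) (c - 1) xv (xv + 1) 2 = c - 2 := by simp [wq]
  have q3 : wq c (c + 1) (c - 2) (c - 1) xv (xv + 1) 3 = c - 1 := by simp [wq]
  have q4 : wq c (c + 1) (c - 2) (c - 1) xv (xv + 1) 4 = xv := by simp [wq]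
  have q5 : wq c (c + 1) (c - 2) (c - 1) xv (xv + 1) 5 = xv + 1 := by simp [wq]
  have hcase : ∀ i : ℤ, 0 ≤ i → i ≤ 5 → i = 0 ∨ i = 1 ∨ i = 2 ∨ i = 3 ∨ i = 4 ∨ i = 5 := by
    intro i _ _
    omega
  have hq : QZ f 0 5 (wq c (c + 1) (c - 2) (c - 1) xv (xv + 1))
      (w1'A c xv) (w1'B d) := by
    refine qz_pos (c := c) (d := d)
      (fun p => if p = N - 1 then 1 else if p = 0 then 0 else
        if p ≤ (xv - c).val then p + 1 else p)
      (fun p => p) (by norm_num) ?_ ?_ ?_ ?_ ?_ ?_
    · intro i i' h1 h2 h3 h4 e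
      have e' := congrArg (fun z => (z - c).val) e
      rcases hcase i h1 h2 with rfl | rfl | rfl | rfl | rfl | rfl <;>
        rcases hcase i' h3 h4 with rfl | rfl | rfl | rfl | rfl | rfl <;>
        simp only [q0, q1, q2, q3, q4, q5] at e' <;> first | rfl | (exfalso; omega)
    · intro i h1 h2 h3
      have : i = 0 ∨ i = 2 ∨ i = 4 := by omega
      rcases this with rfl | rfl | rfl
      · left
        show wq c (c + 1) (c - 2) (c - 1) xv (xv + 1) 1 = wq c (c + 1) (c - 2) (c - 1) xv (xv + 1) 0 + 1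
        rw [q0, q1]
      · left
        show wq c (c + 1) (c - 2) (c - 1) xv (xv + 1) 3 = wq c (c + 1) (c - 2) (c - 1) xv (xv + 1) 2 + 1
        rw [q2, q3]
        ring
      · left
        show wq c (c + 1) (c - 2) (c - 1) xv (xv + 1) 5 = wq c (c + 1) (c - 2) (c - 1) xv (xv + 1) 4 + 1
        rw [q4, q5]
    · intro i h1 h2 h3
      have : i = 1 ∨ i = 3 := by omega
      rcases this with rfl | rfl
      · left
        show f (wq c (c + 1) (c - 2) (c - 1) xv (xv + 1) 2) =
          f (wq c (c + 1) (c - 2) (c - 1) xv (xv + 1) 1) + 1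
        rw [q1, q2, h.g, h.a]
        ring
      · right
        show f (wq c (c + 1) (c - 2) (c - 1) xv (xv + 1) 3) =
          f (wq c (c + 1) (c - 2) (c - 1) xv (xv + 1) 4) + 1
        rw [q3, q4, h.b, hfv]
        ring
    · intro i h1 h2
      rcases hcase i h1 h2 with rfl | rfl | rfl | rfl | rfl | rfl
      · simp only [q0, c0]
        split_ifs <;> first | omega | (exfalso; tauto)
      · simp only [q1, c1, h.g, r1]
        split_ifs <;> first | omega | (exfalso; tauto)
      · simp only [q2, cm2, h.a, r2]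
        split_ifs <;> first | omega | (exfalso; tauto)
      · simp only [q3, cm1, h.b, r0]
        split_ifs <;> first | omega | (exfalso; tauto)
      · simp only [q4, hfv, rm]
        split_ifs <;> first | omega | (exfalso; tauto)
      · simp only [q5, cv']
        split_ifs <;> first | omega | (exfalso; tauto)
    · intro u hu1 hu2
      have e : u = 0 ∨ u = (xv - c).val ∨ u = N - 2 := by
        split_ifs at hu2 <;> first | omega | (exfalso; tauto)
      rcases e with e | e | e
      · subst e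
        refine ⟨0, by norm_num, by norm_num, by norm_num, Or.inl ⟨?_, ?_⟩⟩
        · rw [q0, Nat.cast_zero, add_zero]
        · show wq c (c + 1) (c - 2) (c - 1) xv (xv + 1) 1 = c + ((0 : ℕ) : ZMod N) + 1
          rw [q1, Nat.cast_zero, add_zero]
      · refine ⟨4, by norm_num, by norm_num, by norm_num, Or.inl ⟨?_, ?_⟩⟩
        · rw [q4, e]
          exact at_pos c xv
        · show wq c (c + 1) (c - 2) (c - 1) xv (xv + 1) 5 = c + (u : ZMod N) + 1
          rw [q5, e, ← at_pos c xv]
      · have e3 : c + (u : ZMod N) = c - 2 := by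
          rw [e, Nat.cast_sub (by omega), ZMod.natCast_self]
          push_cast
          ring
        refine ⟨2, by norm_num, by norm_num, by norm_num, Or.inl ⟨?_, ?_⟩⟩
        · rw [q2, e3]
        · show wq c (c + 1) (c - 2) (c - 1) xv (xv + 1) 3 = c + (u : ZMod N) + 1
          rw [q3, e3]
          ring
    · intro u hu1 hu2
      have e : u = N - 1 := by
        split_ifs at hu2 <;> omega
      have e3 : d + (u : ZMod N) = d - 1 := by
        rw [e, Nat.cast_sub (by omega), ZMod.natCast_self, Nat.cast_one]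
        ring
      refine ⟨3, by norm_num, by norm_num, by norm_num, Or.inr ⟨?_, ?_⟩⟩
      · rw [q3, h.b, e3]
        ring
      · show f (wq c (c + 1) (c - 2) (c - 1) xv (xv + 1) 4) = d + (u : ZMod N)
        rw [q4, hfv, e3]
  exact hq

theorem w1'_kill (hb : Bad f) (h : M7 f c d)
    (p0 : (f c - d).val % 2 = 1) (p1 : (f.symm (d - 1) - c).val % 2 = 0)
    (hy : f c ≠ d - 1) (ht : f (c - 3) ≠ d - 1)
    (hv : (d - 1 - f (f.symm (d - 1) + 1)).val % 2 = 0) :
    ∃ (cA cB : ZMod N → Bool) (Y : Finset (ZMod N ⊕ ZMod N)) (k : ℤ),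
      KillQ f 0 5 (wq c (c + 1) (c - 2) (c - 1) (f.symm (d - 1)) (f.symm (d - 1) + 1)) cA cB Y k ∧
        0 < k ∧ k < 5 := by
  obtain ⟨Y, k, g1, g2, g3⟩ := hb.kill (w1'_qz hb h p0 p1 hy ht hv)
  exact ⟨_, _, Y, k, g1, g2, g3⟩

end words

end Pool.Agent.Helper26.M7
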